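import Mathlib
import Pool.Agent.R285.PickExt

/-!
# Hereditary minimum certificates force the complete Pick property
-/

set_option autoImplicit false

namespace Pool.Agent.Results.MP_a92470_an.HereditaryMinimum

open scoped InnerProductSpace ComplexOrder ComplexConjugate
open Matrix Pool.Agent.H770R3.Shim Pool.Agent.Results.MP_e3a8c8_an.ShimorinCertificates
open Pool.Agent.R285.PickExt

universe u

variable {X : Type u}

/-- `s` is a CP kernel: it has the complete Pick property. -/
def IsCPKernel (s : Kernel X) : Prop := IsCPPair s s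

/-- the restriction of a kernel to a subset -/
noncomputable def restrict (k : Kernel X) (A : Set X) : Kernel A :=
  ⟨k.fn.submatrix (fun a : A => (a : X)) (fun a : A => (a : X)), k.psd.submatrix _⟩

/-- `k = (1 - h) s` for some kernel `h` -/
def IsCertificate (k s : Kernel X) : Prop :=
  ∃ h : Kernel X, ∀ x y, k.fn x y = (1 - h.fn x y) * s.fn x y

/-- The quotient `t / s` is a kernel: some kernel `q` equals `t(x,y) / s(x,y)` at all `(x,y)` with
`s(x,y) ≠ 0`. -/
def QuotientIsKernel (t s : Kernel X) : Prop :=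
  ∃ q : Kernel X, ∀ x y, s.fn x y ≠ 0 → q.fn x y = t.fn x y / s.fn x y

/-- `s` is a minimum certificate for `k` over `X`. -/
def IsMinimumCertificate (k s : Kernel X) : Prop :=
  IsCPKernel s ∧ IsCertificate k s ∧
    ∀ t : Kernel X, IsCPKernel t → IsCertificate k t → QuotientIsKernel t s

/-- Cauchy-Schwarz for kernels -/
lemma psd_cs {g : Matrix X X ℂ} (hg : g.PosSemidef) (x y : X) :
    ‖g x y‖ ^ 2 ≤ (g x x).re * (g y y).re := by
  have h1 := (hg.submatrix ![x, y]).det_nonneg
  rw [Matrix.det_fin_two] at h1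
  simp only [Matrix.submatrix_apply, Matrix.cons_val_zero, Matrix.cons_val_one] at h1
  have h2 := (Complex.nonneg_iff.1 h1).1
  rw [← psd_herm hg x y, psd_diag_eq hg x, psd_diag_eq hg y, Complex.mul_conj,
    Complex.sub_re, Complex.ofReal_re, ← Complex.ofReal_mul, Complex.ofReal_re,
    Complex.normSq_eq_norm_sq] at h2
  linarith

/-- Every kernel on a set with at most two points is CP. -/
lemma cp_two_points (k : Kernel X) (a b : X) (hX : ∀ x, x = a ∨ x = b) : IsCPKernel k := by
  classical
  refine cp_of_certificate ?_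
  have hred0 : ∀ z x : X, k.fn x x = 0 → reduced k z x x = 0 := by
    intro z x hx
    simp only [reduced, Matrix.of_apply]
    rw [hx, psd_zero_row k.psd hx z]
    ring
  have hrednn : ∀ z x : X, 0 ≤ (reduced k z x x).re ∧ (reduced k z x x).im = 0 := by
    intro z x
    have hd : k.fn z z = ((k.fn z z).re : ℂ) := psd_diag_eq k.psd z
    have hdx : k.fn x x = ((k.fn x x).re : ℂ) := psd_diag_eq k.psd x
    have h1 : reduced k z x x =
        (((k.fn x x).re - ‖k.fn x z‖ ^ 2 / (k.fn z z).re : ℝ) : ℂ) := by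
      simp only [reduced, Matrix.of_apply]
      rw [← psd_herm k.psd x z, Complex.mul_conj, Complex.normSq_eq_norm_sq]
      conv_lhs => rw [hd, hdx]
      push_cast
      rfl
    rw [h1, Complex.ofReal_re, Complex.ofReal_im]
    refine ⟨?_, rfl⟩
    have h2 := psd_cs k.psd x z
    rcases (psd_diag_re k.psd z).lt_or_eq with h3 | h3
    · rw [sub_nonneg, div_le_iff₀ h3]
      exact h2
    · rw [← h3, div_zero, sub_zero]
      exact psd_diag_re k.psd x
  set p : X → Matrix X X ℂ := fun z => Matrix.of fun x y =>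
    if x = y then (((reduced k z x x).re / (k.fn x x).re : ℝ) : ℂ) else 0 with hp
  have hpsd : ∀ z, (p z).PosSemidef := by
    intro z
    refine psd_of_sum ?_ fun F c => ?_
    · intro x y
      by_cases hxy : x = y
      · subst hxy
        simp only [hp, Matrix.of_apply, if_true, Complex.conj_ofReal]
      · simp only [hp, Matrix.of_apply, if_neg hxy, if_neg (Ne.symm hxy), map_zero]
    · have e : (∑ i ∈ F, ∑ j ∈ F, conj (c i) * p z i j * c j) =
          ((∑ i ∈ F, (reduced k z i i).re / (k.fn i i).re * Complex.normSq (c i) : ℝ) : ℂ) := by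
        push_cast
        refine Finset.sum_congr rfl fun i hi => ?_
        rw [Finset.sum_eq_single i]
        · simp only [hp, Matrix.of_apply, if_true]
          rw [Complex.normSq_eq_conj_mul_self]
          push_cast
          ring
        · intro j _ hji
          simp only [hp, Matrix.of_apply, if_neg (Ne.symm hji), mul_zero, zero_mul]
        · intro h
          exact absurd hi h
      rw [e, Complex.ofReal_re]
      refine Finset.sum_nonneg fun i _ => ?_
      exact mul_nonneg (div_nonneg (hrednn z i).1 (psd_diag_re k.psd i)) (Complex.normSq_nonneg _)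
  refine ⟨fun z => ⟨p z, hpsd z⟩, fun z => ?_⟩
  have h : reduced k z = p z ⊙ k.fn := by
    ext x y
    rw [Matrix.hadamard_apply]
    by_cases hxy : x = y
    · subst hxy
      simp only [hp, Matrix.of_apply, if_true]
      by_cases h0 : k.fn x x = 0
      · rw [hred0 z x h0, h0, mul_zero]
      · have h1 : (k.fn x x).re ≠ 0 := by
          intro h2
          exact h0 (Complex.ext h2 (psd_diag_im k.psd x))
        have h3 : reduced k z x x = ((reduced k z x x).re : ℂ) :=
          Complex.ext rfl (hrednn z x).2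
        rw [h3, psd_diag_eq k.psd x]
        simp only [Complex.ofReal_re]
        rw [← Complex.ofReal_mul, div_mul_cancel₀ _ h1]
    · simp only [hp, Matrix.of_apply, if_neg hxy, zero_mul]
      have h1 : x = z ∨ y = z := by
        rcases hX x with rfl | rfl <;> rcases hX y with rfl | rfl <;> rcases hX z with rfl | rfl <;>
          simp_all
      have e1 : reduced k z = red k.fn z := rfl
      rcases h1 with rfl | rfl
      · rw [e1, red_zero_row k.psd]
      · rw [e1, red_zero_col k.psd]
  have h1 : reduced k z - p z ⊙ k.fn = 0 := by rw [h, sub_self]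
  have h2 : p z ⊙ k.fn - reduced k z = 0 := by rw [h, sub_self]
  simp only
  rw [h1, h2]
  exact ⟨Matrix.PosSemidef.zero, Matrix.PosSemidef.zero⟩

/-- the elementary inequality behind the theorem -/
lemma rigid (a b : ℝ) (c : ℂ) (ha : 0 ≤ a) (hb : 0 ≤ b) (ha1 : a ≤ 1) (hb1 : b ≤ 1)
    (h1 : ‖c‖ ^ 2 ≤ a * b) (h2 : ‖1 - c‖ ^ 2 ≤ (1 - a) * (1 - b)) : a = b ∧ c = (a : ℂ) := by
  set p := Real.sqrt a
  set q := Real.sqrt b
  set p' := Real.sqrt (1 - a)
  set q' := Real.sqrt (1 - b)
  have ep : p ^ 2 = a := Real.sq_sqrt ha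
  have eq : q ^ 2 = b := Real.sq_sqrt hb
  have ep' : p' ^ 2 = 1 - a := Real.sq_sqrt (by linarith)
  have eq' : q' ^ 2 = 1 - b := Real.sq_sqrt (by linarith)
  have hp : 0 ≤ p := Real.sqrt_nonneg _
  have hq : 0 ≤ q := Real.sqrt_nonneg _
  have hp' : 0 ≤ p' := Real.sqrt_nonneg _
  have hq' : 0 ≤ q' := Real.sqrt_nonneg _
  have h3 : ‖c‖ ≤ p * q := by
    apply (pow_le_pow_iff_left₀ (norm_nonneg _) (by positivity) two_ne_zero).1
    rw [mul_pow, ep, eq]
    exact h1
  have h4 : ‖1 - c‖ ≤ p' * q' := by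
    apply (pow_le_pow_iff_left₀ (norm_nonneg _) (by positivity) two_ne_zero).1
    rw [mul_pow, ep', eq']
    exact h2
  have h5 : (1 : ℝ) ≤ ‖c‖ + ‖1 - c‖ := by
    have : (1 : ℂ) = c + (1 - c) := by ring
    calc (1 : ℝ) = ‖(1 : ℂ)‖ := by simp
      _ = ‖c + (1 - c)‖ := by rw [← this]
      _ ≤ _ := norm_add_le _ _
  have h6 : (p - q) ^ 2 + (p' - q') ^ 2 ≤ 0 := by nlinarith
  have h7 : (p - q) ^ 2 = 0 := le_antisymm (by nlinarith [sq_nonneg (p' - q')]) (sq_nonneg _)
  have hpq : p = q := by
    rw [sq_eq_zero_iff, sub_eq_zero] at h7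
    exact h7
  have hab : a = b := by rw [← ep, ← eq, hpq]
  subst hab
  refine ⟨rfl, ?_⟩
  have h8 : ‖c‖ ≤ a := by
    rw [← hpq, ← sq, ep] at h3
    exact h3
  have h9 : ‖1 - c‖ ≤ 1 - a := by
    have hp'q' : p' = q' := rfl
    rw [← hp'q', ← sq, ep'] at h4
    exact h4
  have h10 : c.re ≤ a := (Complex.re_le_norm c).trans h8
  have h11 : 1 - c.re ≤ 1 - a := by
    have := (Complex.re_le_norm (1 - c)).trans h9
    simpa using this
  have h12 : c.re = a := le_antisymm h10 (by linarith)
  have h13 : c.im = 0 := by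
    have h14 : c.re ^ 2 + c.im ^ 2 = ‖c‖ ^ 2 := by
      rw [← Complex.normSq_eq_norm_sq, Complex.normSq_apply]; ring
    have h15 : ‖c‖ ^ 2 ≤ a ^ 2 := pow_le_pow_left₀ (norm_nonneg _) h8 2
    rw [h12] at h14
    have h16 : c.im ^ 2 = 0 := le_antisymm (by linarith) (sq_nonneg _)
    exact pow_eq_zero_iff two_ne_zero |>.1 h16
  exact Complex.ext h12 h13

/-- the key consequence of minimality on two-point sets -/
lemma two_point_rigidity (k s h : Kernel X) (hk : ∀ x y, k.fn x y = (1 - h.fn x y) * s.fn x y)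
    (hmin : ∀ A : Set X, A.Nonempty → IsMinimumCertificate (restrict k A) (restrict s A))
    (x y : X) (hxy : s.fn x y ≠ 0) :
    (h.fn x x).re ≤ 1 ∧ (h.fn x x).re = (h.fn y y).re ∧ h.fn x y = ((h.fn x x).re : ℂ) := by
  have hsx : s.fn x x ≠ 0 := fun h0 => hxy (psd_zero_row s.psd h0 y)
  have hsy : s.fn y y ≠ 0 := fun h0 => hxy (psd_zero_col s.psd h0 x)
  set A : Set X := {x, y} with hA
  have hxA : x ∈ A := by rw [hA]; simp
  have hyA : y ∈ A := by rw [hA]; simp
  have hcp : IsCPKernel (restrict k A) := by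
    refine cp_two_points _ ⟨x, hxA⟩ ⟨y, hyA⟩ ?_
    rintro ⟨w, hw⟩
    rw [hA] at hw
    rcases hw with hw | hw
    · left; exact Subtype.ext hw
    · right; exact Subtype.ext hw
  have hcert : IsCertificate (restrict k A) (restrict k A) := by
    refine ⟨⟨0, Matrix.PosSemidef.zero⟩, fun a b => ?_⟩
    simp
  obtain ⟨q, hq⟩ := (hmin A ⟨x, hxA⟩).2.2 (restrict k A) hcp hcert
  have key : ∀ (a b : X) (ha : a ∈ A) (hb : b ∈ A), s.fn a b ≠ 0 →
      q.fn ⟨a, ha⟩ ⟨b, hb⟩ = 1 - h.fn a b := by
    intro a b ha hb hab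
    rw [hq ⟨a, ha⟩ ⟨b, hb⟩ hab]
    change k.fn a b / s.fn a b = _
    rw [hk, mul_div_assoc, div_self hab, mul_one]
  have q1 := key x x hxA hxA hsx
  have q2 := key y y hyA hyA hsy
  have q3 := key x y hxA hyA hxy
  have r1 := psd_diag_re q.psd ⟨x, hxA⟩
  have r2 := psd_diag_re q.psd ⟨y, hyA⟩
  have r3 := psd_cs q.psd ⟨x, hxA⟩ ⟨y, hyA⟩
  rw [q1, Complex.sub_re, Complex.one_re] at r1
  rw [q2, Complex.sub_re, Complex.one_re] at r2
  rw [q1, q2, q3, Complex.sub_re, Complex.one_re, Complex.sub_re, Complex.one_re] at r3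
  have t1 := psd_diag_re h.psd x
  have t2 := psd_diag_re h.psd y
  have t3 := psd_cs h.psd x y
  obtain ⟨u1, u2⟩ := rigid _ _ _ t1 t2 (by linarith) (by linarith) t3 r3
  exact ⟨by linarith, u1, u2⟩

variable {N : ℕ}

lemma Q_subset' [DecidableEq X] (g : Matrix X X ℂ) {F G : Finset X} (hFG : F ⊆ G) (h : X → E N)
    (h0 : ∀ i ∈ G, i ∉ F → h i = 0) : Q g G h = Q g F h := by
  rw [Q_congr g (F := G) (h' := fun i => if i ∈ F then h i else 0) (fun i hi => by
    by_cases hiF : i ∈ F
    · simp [hiF]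
    · simp [hiF, h0 i hi hiF])]
  rw [Q_subset g hFG _ (fun i hi => by simp [hi])]
  exact Q_congr g fun i hi => by simp [hi]

/-- A kernel equal to a CP kernel times a (possibly vanishing) dyad is CP. -/
lemma cp_of_dyad (k s : Kernel X) (d : X → ℝ)
    (hk : ∀ x y, k.fn x y = ((d x * d y : ℝ) : ℂ) * s.fn x y) (hs : IsCPKernel s) :
    IsCPKernel k := by
  classical
  refine cp_of_onePoint fun N F z hz S hS h => ?_
  have hOP := onePoint_of_cp hs N
  have hQ : ∀ (G : Finset X) (f : X → E N), Q k.fn G f =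
      Q s.fn G (fun i => ((d i : ℝ) : ℂ) • f i) := fun G f =>
    Pool.Agent.R285.PickExt.Q_signs' _ _ G d (fun x _ y _ => hk x y) f
  by_cases hdz : d z = 0
  · have hred : red k.fn z = k.fn := by
      ext x y
      simp only [red, Matrix.of_apply]
      rw [hk x z, hdz]
      simp
    rw [hred]
    exact hS h
  · have hred : ∀ x y, red k.fn z x y = ((d x * d y : ℝ) : ℂ) * red s.fn z x y := by
      intro x y
      simp only [red, Matrix.of_apply]
      rw [hk x y, hk x z, hk z y, hk z z]
      have hdz' : (d z : ℂ) ≠ 0 := by exact_mod_cast hdz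
      by_cases hsz : s.fn z z = 0
      · rw [hsz]; simp
      · push_cast
        field_simp
    have hQr : ∀ (G : Finset X) (f : X → E N), Q (red k.fn z) G f =
        Q (red s.fn z) G (fun i => ((d i : ℝ) : ℂ) • f i) := fun G f =>
      Pool.Agent.R285.PickExt.Q_signs' _ _ G d (fun x _ y _ => hred x y) f
    set F₁ := F.filter (fun i => d i ≠ 0) with hF₁
    have hsub : F₁ ⊆ F := Finset.filter_subset _ _
    have hz₁ : z ∉ F₁ := fun hz' => hz (hsub hz')
    have h0 : ∀ (f : X → E N), ∀ i ∈ F, i ∉ F₁ → ((d i : ℝ) : ℂ) • f i = 0 := by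
      intro f i hi hi1
      have : d i = 0 := by
        by_contra hne
        exact hi1 (Finset.mem_filter.2 ⟨hi, hne⟩)
      rw [this]; simp
    have hS₁ : ∀ g : X → E N, Q s.fn F₁ (fun i => S i (g i)) ≤ Q s.fn F₁ g := by
      intro g
      have h1 := hS (fun i => ((d i)⁻¹ : ℂ) • g i)
      rw [hQ, hQ, Q_subset' s.fn hsub _ (h0 _), Q_subset' s.fn hsub _ (h0 _)] at h1
      have hne : ∀ i ∈ F₁, (d i : ℂ) ≠ 0 := by
        intro i hi
        exact_mod_cast (Finset.mem_filter.1 hi).2
      rw [Q_congr s.fn (F := F₁) (h' := fun i => S i (g i)) (fun i hi => by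
          rw [map_smul, smul_smul, mul_inv_cancel₀ (hne i hi), one_smul]),
        Q_congr s.fn (F := F₁) (h := fun i => ((d i : ℝ) : ℂ) • ((d i : ℝ) : ℂ)⁻¹ • g i)
          (h' := g) (fun i hi => by
          rw [smul_smul, mul_inv_cancel₀ (hne i hi), one_smul])] at h1
      exact h1
    rw [hQr, hQr, Q_subset' (red s.fn z) hsub _ (h0 _), Q_subset' (red s.fn z) hsub _ (h0 _)]
    have h2 := hOP F₁ z hz₁ S hS₁ (fun i => ((d i : ℝ) : ℂ) • h i)
    refine le_trans (le_of_eq ?_) h2
    exact Q_congr _ fun i _ => by rw [map_smul]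

/-- **Positive answer to Q1**: if `s` is a CP kernel with `k = (1 - h) s` for a kernel `h`, and
every restriction of `s` to a nonempty subset is a minimum certificate for the restriction of
`k`, then `k` is CP and equals `s` up to a dyad. -/
theorem result (X : Type u) (k s : Kernel X) (hs : IsCPKernel s) (hks : IsCertificate k s)
    (hmin : ∀ A : Set X, A.Nonempty → IsMinimumCertificate (restrict k A) (restrict s A)) :
    IsCPKernel k ∧ ∃ δ : X → ℂ, ∀ x y, k.fn x y = δ x * conj (δ y) * s.fn x y := by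
  obtain ⟨h, hk⟩ := hks
  set d : X → ℝ := fun x => Real.sqrt (1 - (h.fn x x).re) with hd
  have hkd : ∀ x y, k.fn x y = ((d x * d y : ℝ) : ℂ) * s.fn x y := by
    intro x y
    by_cases hxy : s.fn x y = 0
    · rw [hk, hxy, mul_zero, mul_zero]
    · obtain ⟨h1, h2, h3⟩ := two_point_rigidity k s h hk hmin x y hxy
      have h4 : d x * d y = 1 - (h.fn x x).re := by
        simp only [hd]
        rw [← h2]
        exact Real.mul_self_sqrt (by linarith)
      rw [hk, h3, h4]
      push_cast
      ring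
  refine ⟨cp_of_dyad k s d hkd hs, fun x => (d x : ℂ), fun x y => ?_⟩
  rw [hkd, Complex.conj_ofReal]
  push_cast
  ring

end Pool.Agent.Results.MP_a92470_an.HereditaryMinimum
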